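import Mathlib
import Pool.Agent.Helper292.ForceCH

open Set Cardinal
open scoped Cardinal

namespace Pool.Agent.Results.MP_b2422a_gt.ConsistentlyNo

/-- `A ⊆* B`: all but finitely many elements of `A` belong to `B`. -/
def AlmostSub (A B : Set ℕ) : Prop := (A \ B).Finite

/-- The countably infinite cover `{U n : n}` of `X`, enumerated without repetition, is an open
`τ*`-cover: its members are open and different from `X`, every point lies in infinitely many of
them, and the family of the sets `{n : x ∈ U n}` is linearly refinable. -/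
structure IsTauStarCover {X : Type} [TopologicalSpace X] (U : ℕ → Set X) : Prop where
  isOpen : ∀ n, IsOpen (U n)
  injective : Function.Injective U
  proper : ∀ n, U n ≠ Set.univ
  large : ∀ x, {n | x ∈ U n}.Infinite
  refinable : ∃ B : X → Set ℕ, (∀ x, B x ⊆ {n | x ∈ U n} ∧ (B x).Infinite) ∧
    ∀ x y, AlmostSub (B x) (B y) ∨ AlmostSub (B y) (B x)

/-- Some subfamily `{U n : n ∈ A}`, `A` infinite, is a `γ`-cover of `X`. -/
def HasGammaSubcover {X : Type} (U : ℕ → Set X) : Prop :=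
  ∃ A : Set ℕ, A.Infinite ∧ ∀ x, {n | n ∈ A ∧ x ∉ U n}.Finite

/-- `cov(M)`: the least number of meagre sets covering the Baire space. -/
noncomputable def covM : Cardinal.{0} :=
  sInf {κ | ∃ F : Set (Set (ℕ → ℕ)), #F = κ ∧ (∀ M ∈ F, IsMeagre M) ∧ ⋃₀ F = Set.univ}

theorem exists_notMem_of_lt_covM {I : Set (Set ℕ)} (hI : #I < covM) (M : Set ℕ → Set (ℕ → ℕ))
    (hM : ∀ t ∈ I, IsMeagre (M t)) : ∃ y, ∀ t ∈ I, y ∉ M t := by
  by_contra! hcon
  have h1 : covM ≤ #(M '' I : Set (Set (ℕ → ℕ))) := by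
    apply csInf_le'
    refine ⟨M '' I, rfl, ?_, ?_⟩
    · rintro _ ⟨t, ht, rfl⟩
      exact hM t ht
    · rw [eq_univ_iff_forall]
      intro y
      obtain ⟨t, ht, hy⟩ := hcon y
      exact ⟨M t, ⟨t, ht, rfl⟩, hy⟩
  exact absurd (h1.trans mk_image_le) (not_le.2 hI)

section Rank

variable {X : Type} (U : ℕ → Set X) (S : Set (Set ℕ))

/-- the points which lie outside all `U n`, `n ∈ s` -/
def Pt (s : Finset ℕ) : Set X := {x | ∀ n ∈ s, x ∉ U n}

inductive Bad : Finset ℕ → Prop
  | nil (s : Finset ℕ) : Pt U s = ∅ → Bad s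
  | step (s : Finset ℕ) (t : Set ℕ) (ht : t ∈ S) (F : Set ℕ) (hF : F.Finite)
      (h : ∀ n ∈ t, n ∉ F → Bad (insert n s)) : Bad s

theorem Bad.spec {s : Finset ℕ} (h : Bad U S s) : ∃ C : Set (Set ℕ), C ⊆ S ∧ C.Countable ∧
    ∀ A : Set ℕ, (∀ t ∈ C, AlmostSub A t) → ∀ x ∈ Pt U s, {n | n ∈ A ∧ x ∉ U n}.Finite := by
  induction h with
  | nil s hs =>
    refine ⟨∅, empty_subset _, countable_empty, ?_⟩
    intro A _ x hx
    rw [hs] at hx
    exact absurd hx (notMem_empty _)
  | step s t ht F hF _ ih =>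
    classical
    choose! C hC1 hC2 hC3 using ih
    refine ⟨{t} ∪ ⋃ n ∈ {n | n ∈ t ∧ n ∉ F}, C n, ?_, ?_, ?_⟩
    · apply union_subset (singleton_subset_iff.2 ht)
      exact iUnion₂_subset fun n hn => hC1 n hn.1 hn.2
    · exact (countable_singleton _).union ((to_countable _).biUnion fun n hn => hC2 n hn.1 hn.2)
    · intro A hA x hx
      by_contra hinf
      have hinf' : {n | n ∈ A ∧ x ∉ U n}.Infinite := hinf
      have h1 : (A \ t).Finite := hA t (Or.inl rfl)
      obtain ⟨n, hn, hn2⟩ := (hinf'.sdiff (h1.union hF)).nonempty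
      have hnt : n ∈ t := by
        by_contra hc
        exact hn2 (Or.inl ⟨hn.1, hc⟩)
      have hnF : n ∉ F := fun hc => hn2 (Or.inr hc)
      refine hinf (hC3 n hnt hnF A (fun t' ht' => hA t' (Or.inr ?_)) x ?_)
      · exact mem_biUnion (show n ∈ {n | n ∈ t ∧ n ∉ F} from ⟨hnt, hnF⟩) ht'
      · intro m hm
        rcases Finset.mem_insert.1 hm with rfl | hm
        · exact hn.2
        · exact hx m hm

theorem not_bad_nonempty {s : Finset ℕ} (h : ¬ Bad U S s) : (Pt U s).Nonempty := by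
  by_contra hc
  exact h (Bad.nil s (not_nonempty_iff_eq_empty.1 hc))

theorem not_bad_infinite {s : Finset ℕ} (h : ¬ Bad U S s) {t : Set ℕ} (ht : t ∈ S) :
    {n | n ∈ t ∧ ¬ Bad U S (insert n s)}.Infinite := by
  intro hfin
  apply h
  refine Bad.step s t ht _ hfin ?_
  intro n hn hn2
  by_contra hc
  exact hn2 ⟨hn, hc⟩

open Classical in
/-- the branch coded by `y` -/
noncomputable def sq (y : ℕ → ℕ) (i : ℕ) : Finset ℕ :=
  Nat.rec (motive := fun _ => Finset ℕ) ∅
    (fun i s => if Bad U S (insert (y i) s) then s else insert (y i) s) i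

theorem sq_zero (y : ℕ → ℕ) : sq U S y 0 = ∅ := rfl

open Classical in
theorem sq_succ (y : ℕ → ℕ) (i : ℕ) : sq U S y (i + 1) =
    if Bad U S (insert (y i) (sq U S y i)) then sq U S y i else insert (y i) (sq U S y i) := rfl

theorem sq_not_bad (h0 : ¬ Bad U S ∅) (y : ℕ → ℕ) (i : ℕ) : ¬ Bad U S (sq U S y i) := by
  classical
  induction i with
  | zero => rw [sq_zero]; exact h0
  | succ i ih =>
    rw [sq_succ]
    split_ifs with h
    · exact ih
    · exact h

theorem sq_mono (y : ℕ → ℕ) (i : ℕ) : sq U S y i ⊆ sq U S y (i + 1) := by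
  classical
  rw [sq_succ]
  split_ifs
  · exact Finset.Subset.refl _
  · exact Finset.subset_insert _ _

theorem sq_congr {y y' : ℕ → ℕ} {i : ℕ} (h : ∀ j < i, y j = y' j) :
    sq U S y i = sq U S y' i := by
  classical
  induction i with
  | zero => rfl
  | succ i ih =>
    rw [sq_succ, sq_succ, ih (fun j hj => h j (by omega)), h i (by omega)]

theorem isOpen_sq (i : ℕ) (P : Finset ℕ → Prop) : IsOpen {y | P (sq U S y i)} := by
  classical
  induction i generalizing P with
  | zero => simp only [sq_zero]; exact isOpen_const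
  | succ i ih =>
    have h1 : {y | P (sq U S y (i + 1))} = ⋃ n, ({y | y i = n} ∩
        {y | P (if Bad U S (insert n (sq U S y i)) then sq U S y i
          else insert n (sq U S y i))}) := by
      ext y
      simp only [mem_ofPred_eq, mem_iUnion, mem_inter_iff, sq_succ]
      constructor
      · intro h
        exact ⟨y i, rfl, h⟩
      · rintro ⟨n, rfl, h⟩
        exact h
    rw [h1]
    refine isOpen_iUnion fun n => IsOpen.inter ?_ ?_
    · have h2 : IsOpen ((fun y : ℕ → ℕ => y i) ⁻¹' {n}) :=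
        (isOpen_discrete _).preimage (continuous_apply i)
      exact h2
    · exact ih (fun s => P (if Bad U S (insert n s) then s else insert n s))

/-- the sequences whose branch has only finitely many elements in `t` -/
def Mt (t : Set ℕ) : Set (ℕ → ℕ) := {y | ∃ m, ∀ i, ∀ n ∈ sq U S y i, n ∈ t → n < m}

theorem isMeagre_Mt (h0 : ¬ Bad U S ∅) {t : Set ℕ} (ht : t ∈ S) : IsMeagre (Mt U S t) := by
  have h1 : Mt U S t = ⋃ m, {y | ∀ i, ∀ n ∈ sq U S y i, n ∈ t → n < m} := by
    ext y; simp [Mt]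
  rw [h1]
  refine isMeagre_iUnion fun m => IsNowhereDense.isMeagre ?_
  have hcl : IsClosed {y | ∀ i, ∀ n ∈ sq U S y i, n ∈ t → n < m} := by
    have : {y | ∀ i, ∀ n ∈ sq U S y i, n ∈ t → n < m} =
        ⋂ i, {y | ∀ n ∈ sq U S y i, n ∈ t → n < m} := by
      ext y; simp
    rw [this]
    refine isClosed_iInter fun i => ?_
    rw [← isOpen_compl_iff]
    exact isOpen_sq U S i (fun s => ¬ ∀ n ∈ s, n ∈ t → n < m)
  rw [hcl.isNowhereDense_iff]
  rw [eq_empty_iff_forall_notMem]
  intro y hy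
  have hsel : ∀ k, ∃ n, n ∈ t ∧ m ≤ n ∧ ¬ Bad U S (insert n (sq U S y k)) := by
    intro k
    obtain ⟨n, hn, hnm⟩ := (not_bad_infinite U S (sq_not_bad U S h0 y k) ht).exists_gt m
    exact ⟨n, hn.1, hnm.le, hn.2⟩
  choose f hf1 hf2 hf3 using hsel
  have hlim : Filter.Tendsto (fun k => Function.update y k (f k)) Filter.atTop (nhds y) := by
    rw [tendsto_pi_nhds]
    intro j
    apply tendsto_const_nhds.congr'
    filter_upwards [Filter.eventually_gt_atTop j] with k hk
    rw [Function.update_of_ne hk.ne]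
  have hev := hlim.eventually (isOpen_interior.mem_nhds hy)
  obtain ⟨k, hk⟩ := hev.exists
  have hk2 := interior_subset hk
  have h3 : sq U S (Function.update y k (f k)) k = sq U S y k := by
    apply sq_congr
    intro j hj
    rw [Function.update_of_ne hj.ne]
  have h4 : f k ∈ sq U S (Function.update y k (f k)) (k + 1) := by
    classical
    rw [sq_succ, h3, Function.update_self, if_neg (hf3 k)]
    exact Finset.mem_insert_self _ _
  have h5 := hk2 (k + 1) (f k) h4 (hf1 k)
  exact absurd h5 (not_lt.2 (hf2 k))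

theorem exists_point [TopologicalSpace X] [CompactSpace X] (hU : ∀ n, IsOpen (U n)) (h0 : ¬ Bad U S ∅)
    (hS : #S < covM) : ∃ x, ∀ t ∈ S, {n | n ∈ t ∧ x ∉ U n}.Infinite := by
  obtain ⟨y, hy⟩ := exists_notMem_of_lt_covM hS (Mt U S) (fun t ht => isMeagre_Mt U S h0 ht)
  have hcl : ∀ s : Finset ℕ, IsClosed (Pt U s) := by
    intro s
    have : Pt U s = ⋂ n ∈ s, (U n)ᶜ := by
      ext x; simp [Pt]
    rw [this]
    exact isClosed_biInter fun n _ => (hU n).isClosed_compl
  obtain ⟨x, hx⟩ := IsCompact.nonempty_iInter_of_sequence_nonempty_isCompact_isClosed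
    (fun i => Pt U (sq U S y i))
    (fun i x hx n hn => hx n (sq_mono U S y i hn))
    (fun i => not_bad_nonempty U S (sq_not_bad U S h0 y i))
    (hcl _).isCompact (fun i => hcl _)
  rw [mem_iInter] at hx
  refine ⟨x, fun t ht hfin => ?_⟩
  apply hy t ht
  obtain ⟨m, hm⟩ := hfin.bddAbove
  refine ⟨m + 1, fun i n hn hnt => ?_⟩
  exact Nat.lt_succ_of_le (hm ⟨hnt, hx i n hn⟩)

end Rank


/-- the pseudo-intersection number `p`: the least size of a family of subsets of `ℕ` such that all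
intersections of finite subfamilies are infinite, without an infinite pseudo-intersection. -/
noncomputable def pNum : Cardinal.{0} :=
  sInf {κ | ∃ F : Set (Set ℕ), #F = κ ∧ (∀ G : Set (Set ℕ), G ⊆ F → G.Finite → (⋂₀ G).Infinite) ∧
    ¬ ∃ A : Set ℕ, A.Infinite ∧ ∀ B ∈ F, AlmostSub A B}

theorem exists_pseudo_of_countable {E : Type} (S : ℕ → Set E)
    (hS : ∀ n, (⋂ i ≤ n, S i).Infinite) : ∃ A : Set E, A.Infinite ∧ ∀ i, (A \ S i).Finite := by
  classical
  have hsel : ∀ (n : ℕ) (F : Finset E), ∃ a, a ∉ F ∧ ∀ i ≤ n, a ∈ S i := by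
    intro n F
    obtain ⟨a, ha, haF⟩ := (hS n).exists_notMem_finset F
    refine ⟨a, haF, fun i hi => ?_⟩
    simp only [mem_iInter] at ha
    exact ha i hi
  choose sel hsel1 hsel2 using hsel
  let G : ℕ → Finset E := fun n => Nat.rec (motive := fun _ => Finset E) ∅
    (fun n F => insert (sel n F) F) n
  have hG : ∀ n, G (n + 1) = insert (sel n (G n)) (G n) := fun n => rfl
  have hmono : Monotone G := monotone_nat_of_le_succ fun n => by
    rw [hG]; exact Finset.subset_insert _ _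
  let a : ℕ → E := fun n => sel n (G n)
  have hinj : Function.Injective a := by
    intro m n hmn
    by_contra hne
    wlog hlt : m < n generalizing m n
    · exact this hmn.symm (Ne.symm hne) (by omega)
    have h1 : a m ∈ G n := by
      apply hmono (show m + 1 ≤ n by omega)
      rw [hG]
      exact Finset.mem_insert_self _ _
    rw [hmn] at h1
    exact hsel1 n (G n) h1
  refine ⟨range a, infinite_range_of_injective hinj, fun i => ?_⟩
  apply ((finite_lt_nat i).image a).subset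
  rintro _ ⟨⟨n, rfl⟩, hn⟩
  refine ⟨n, ?_, rfl⟩
  by_contra hc
  have hin : i ≤ n := not_lt.1 hc
  exact hn (hsel2 n (G n) i hin)

theorem chain_min {I : Type} (T : I → Set ℕ) (hT : ∀ i j, AlmostSub (T i) (T j) ∨ AlmostSub (T j) (T i))
    (s : Finset I) (hs : s.Nonempty) : ∃ i ∈ s, ∀ j ∈ s, AlmostSub (T i) (T j) := by
  classical
  induction hs using Finset.Nonempty.cons_induction with
  | singleton a =>
    refine ⟨a, Finset.mem_singleton_self a, fun j hj => ?_⟩
    rw [Finset.mem_singleton.1 hj]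
    simp [AlmostSub]
  | cons a s ha hs ih =>
    obtain ⟨i, hi, hij⟩ := ih
    rcases hT a i with h | h
    · refine ⟨a, Finset.mem_cons_self a s, fun j hj => ?_⟩
      rcases Finset.mem_cons.1 hj with rfl | hj
      · simp [AlmostSub]
      · exact (h.union (hij j hj)).subset fun n hn => by
          by_cases hni : n ∈ T i
          · exact Or.inr ⟨hni, hn.2⟩
          · exact Or.inl ⟨hn.1, hni⟩
    · refine ⟨i, Finset.mem_cons.2 (Or.inr hi), fun j hj => ?_⟩
      rcases Finset.mem_cons.1 hj with rfl | hj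
      · exact h
      · exact hij j hj

/-- a countable chain of infinite sets has an infinite pseudo-intersection -/
theorem exists_pseudo_chain (C : Set (Set ℕ)) (hC : C.Countable) (hinf : ∀ t ∈ C, t.Infinite)
    (hch : ∀ s ∈ C, ∀ t ∈ C, AlmostSub s t ∨ AlmostSub t s) :
    ∃ A : Set ℕ, A.Infinite ∧ ∀ t ∈ C, AlmostSub A t := by
  rcases C.eq_empty_or_nonempty with rfl | hne
  · exact ⟨Set.univ, infinite_univ, by simp⟩
  obtain ⟨T, rfl⟩ := hC.exists_eq_range hne
  have hch' : ∀ i j, AlmostSub (T i) (T j) ∨ AlmostSub (T j) (T i) :=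
    fun i j => hch _ ⟨i, rfl⟩ _ ⟨j, rfl⟩
  obtain ⟨A, hA, hAT⟩ := exists_pseudo_of_countable T (fun n => by
    obtain ⟨i, hi, hij⟩ := chain_min T hch' (Finset.range (n + 1)) ⟨0, by simp⟩
    have h1 : (⋃ j ∈ Finset.range (n + 1), (T i \ T j)).Finite :=
      (Finset.range (n + 1)).finite_toSet.biUnion fun j hj => hij j hj
    apply ((hinf _ ⟨i, rfl⟩).sdiff h1).mono
    intro a ha
    simp only [mem_iInter]
    intro j hj
    by_contra hc
    apply ha.2
    simp only [mem_iUnion]
    exact ⟨j, by simp; omega, ha.1, hc⟩)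
  refine ⟨A, hA, ?_⟩
  rintro _ ⟨i, rfl⟩
  exact hAT i

/-- The positive half in ZFC: a `τ*`-cover of a compact space which is refined by a chain of
coinitiality less than `cov(M)` has a `γ`-subcover. -/
theorem gamma_of_small {X : Type} [TopologicalSpace X] [CompactSpace X] (U : ℕ → Set X)
    (hU : ∀ n, IsOpen (U n)) (S : Set (Set ℕ)) (hinf : ∀ t ∈ S, t.Infinite)
    (hch : ∀ s ∈ S, ∀ t ∈ S, AlmostSub s t ∨ AlmostSub t s)
    (hS : #S < covM) (href : ∀ x, ∃ t ∈ S, AlmostSub t {n | x ∈ U n}) :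
    HasGammaSubcover U := by
  by_cases h0 : Bad U S ∅
  · obtain ⟨C, hC1, hC2, hC3⟩ := h0.spec U S
    obtain ⟨A, hA, hAC⟩ := exists_pseudo_chain C hC2 (fun t ht => hinf t (hC1 ht))
      (fun s hs t ht => hch s (hC1 hs) t (hC1 ht))
    exact ⟨A, hA, fun x => hC3 A hAC x (by intro n hn; simp at hn)⟩
  · exfalso
    obtain ⟨x, hx⟩ := exists_point U S hU h0 hS
    obtain ⟨t, ht, htx⟩ := href x
    exact hx t ht htx

/-- every chain of infinite sets (ordered by `⊆*`) without an infinite pseudo-intersection has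
coinitiality less than `cov(M)` (in particular every tower has length less than `cov(M)`) -/
def ShortTowers : Prop :=
  ∀ T : Set (Set ℕ), (∀ t ∈ T, t.Infinite) →
    (∀ s ∈ T, ∀ t ∈ T, AlmostSub s t ∨ AlmostSub t s) →
    (¬ ∃ A : Set ℕ, A.Infinite ∧ ∀ t ∈ T, AlmostSub A t) →
    ∃ S ⊆ T, #S < covM ∧ ∀ t ∈ T, ∃ s ∈ S, AlmostSub s t

theorem AlmostSub.trans {A B C : Set ℕ} (h1 : AlmostSub A B) (h2 : AlmostSub B C) :
    AlmostSub A C := by
  refine (h1.union h2).subset fun n hn => ?_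
  by_cases hB : n ∈ B
  · exact Or.inr ⟨hB, hn.2⟩
  · exact Or.inl ⟨hn.1, hB⟩

theorem gamma_of_shortTowers (h : ShortTowers) {X : Type} [TopologicalSpace X] [CompactSpace X]
    (U : ℕ → Set X) (hU : IsTauStarCover U) : HasGammaSubcover U := by
  obtain ⟨B, hB1, hB2⟩ := hU.refinable
  have hinf : ∀ t ∈ range B, t.Infinite := by rintro _ ⟨x, rfl⟩; exact (hB1 x).2
  have hch : ∀ s ∈ range B, ∀ t ∈ range B, AlmostSub s t ∨ AlmostSub t s := by
    rintro _ ⟨x, rfl⟩ _ ⟨y, rfl⟩
    exact hB2 x y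
  by_cases hp : ∃ A : Set ℕ, A.Infinite ∧ ∀ t ∈ range B, AlmostSub A t
  · obtain ⟨A, hA, hAt⟩ := hp
    refine ⟨A, hA, fun x => (hAt (B x) ⟨x, rfl⟩).subset ?_⟩
    intro n hn
    exact ⟨hn.1, fun hc => hn.2 ((hB1 x).1 hc)⟩
  · obtain ⟨S, hS1, hS2, hS3⟩ := h (range B) hinf hch hp
    refine gamma_of_small U hU.isOpen S (fun t ht => hinf t (hS1 ht))
      (fun s hs t ht => hch s (hS1 hs) t (hS1 ht)) hS2 fun x => ?_
    obtain ⟨s, hs, hsx⟩ := hS3 (B x) ⟨x, rfl⟩
    refine ⟨s, hs, hsx.subset ?_⟩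
    intro n hn
    exact ⟨hn.1, fun hc => hn.2 ((hB1 x).1 hc)⟩


section Basic

theorem pNum_set_nonempty : {κ : Cardinal.{0} | ∃ F : Set (Set ℕ), #F = κ ∧
    (∀ G : Set (Set ℕ), G ⊆ F → G.Finite → (⋂₀ G).Infinite) ∧
    ¬ ∃ A : Set ℕ, A.Infinite ∧ ∀ B ∈ F, AlmostSub A B}.Nonempty := by
  refine ⟨_, {A | A ∈ Filter.hyperfilter ℕ}, rfl, ?_, ?_⟩
  · intro G hG hfin hf
    have h1 : (⋂₀ G) ∈ Filter.hyperfilter ℕ := (Filter.sInter_mem hfin).2 hG
    exact Filter.notMem_hyperfilter_of_finite hf h1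
  · rintro ⟨A, hA, hAB⟩
    obtain ⟨s, hs⟩ : ∃ s : Set ℕ, s ⊆ A ∧ s.Infinite ∧ (A \ s).Infinite := by
      let g := Nat.nth (· ∈ A)
      have hginj : Function.Injective g := Nat.nth_injective hA
      have hgmem : ∀ n, g n ∈ A := fun n => Nat.nth_mem_of_infinite hA n
      refine ⟨g '' {n | Even n}, ?_, ?_, ?_⟩
      · rintro _ ⟨n, _, rfl⟩; exact hgmem n
      · apply Set.Infinite.image hginj.injOn
        exact Set.infinite_of_injective_forall_mem (f := fun n : ℕ => 2 * n)
          (fun a b h => by simpa using h) (fun n => even_two_mul n)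
      · have : (g '' {n | ¬ Even n}).Infinite := by
          apply Set.Infinite.image hginj.injOn
          exact Set.infinite_of_injective_forall_mem (f := fun n : ℕ => 2 * n + 1)
            (fun a b h => by simpa using h) (fun n => by simp [parity_simps])
        apply this.mono
        rintro _ ⟨n, hn, rfl⟩
        refine ⟨hgmem n, ?_⟩
        rintro ⟨m, hm, hmn⟩
        exact hn (hginj hmn ▸ hm)
    rcases Ultrafilter.mem_or_compl_mem (Filter.hyperfilter ℕ) s with h | h
    · exact hs.2.2 (hAB s h)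
    · apply hs.2.1
      apply (hAB _ h).subset
      intro n hn
      exact ⟨hs.1 hn, fun hc => hc hn⟩

theorem aleph0_lt_pNum : ℵ₀ < pNum := by
  by_contra hcon
  rw [not_lt] at hcon
  obtain ⟨F, hF1, hF2, hF3⟩ := csInf_mem pNum_set_nonempty
  apply hF3
  have hc : F.Countable := by
    rw [← Cardinal.le_aleph0_iff_set_countable]
    exact hF1.le.trans hcon
  rcases F.eq_empty_or_nonempty with rfl | hne
  · exact ⟨Set.univ, infinite_univ, by simp⟩
  obtain ⟨T, rfl⟩ := hc.exists_eq_range hne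
  obtain ⟨A, hA, hAT⟩ := exists_pseudo_of_countable T (fun n => by
    have h := hF2 (T '' {i | i ≤ n}) (image_subset_range _ _) ((finite_le_nat n).image _)
    rwa [sInter_image] at h)
  refine ⟨A, hA, ?_⟩
  rintro _ ⟨i, rfl⟩
  exact hAT i

theorem exists_pseudo_of_lt_p {W : Type} [Countable W] [Infinite W] {I : Type}
    (hI : #I < pNum) (S : I → Set W) (hS : ∀ G : Finset I, (⋂ i ∈ G, S i).Infinite) :
    ∃ A : Set W, A.Infinite ∧ ∀ i, (A \ S i).Finite := by
  classical
  obtain ⟨e⟩ : Nonempty (W ≃ ℕ) := nonempty_equiv_of_countable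
  have h1 := notMem_of_lt_csInf (mk_range_le.trans_lt hI : #(range fun i => e '' S i) < pNum)
    (OrderBot.bddBelow _)
  have h2 : ∃ A : Set ℕ, A.Infinite ∧ ∀ B ∈ range (fun i => e '' S i), AlmostSub A B := by
    by_contra hcon
    apply h1
    refine ⟨_, rfl, ?_, hcon⟩
    intro G hG hfin
    have hG' : (hfin.toFinset : Set (Set ℕ)) ⊆ (fun i => e '' S i) '' Set.univ := by
      rw [image_univ]; simpa using hG
    obtain ⟨s, _, hs⟩ := Finset.subset_set_image_iff.1 hG'
    apply ((hS s).image e.injective.injOn).mono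
    rintro _ ⟨w, hw, rfl⟩ B hB
    have hB' : B ∈ hfin.toFinset := hfin.mem_toFinset.2 hB
    rw [← hs, Finset.mem_image] at hB'
    obtain ⟨i, hi, rfl⟩ := hB'
    simp only [mem_iInter] at hw
    exact ⟨w, hw i hi, rfl⟩
  obtain ⟨A, hA, hAB⟩ := h2
  refine ⟨e ⁻¹' A, ?_, fun i => ?_⟩
  · exact hA.preimage (by rw [e.surjective.range_eq]; exact subset_univ _)
  · have h3 := hAB _ ⟨i, rfl⟩
    apply (h3.preimage e.injective.injOn).subset
    intro w hw
    refine ⟨hw.1, ?_⟩
    rintro ⟨w', hw', he⟩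
    exact hw.2 (e.injective he ▸ hw')

end Basic

section Slalom

variable (f : ℕ → ℕ)

abbrev Z (k : ℕ) : Type := (j : Fin (k + 1)) → (Fin (f (Nat.pair k j)) → Bool)

abbrev E : Type := Σ k : ℕ, Z f k

def Rich (T : Set (E f)) (p k : ℕ) : Prop :=
  ∃ (d : Finset (Fin (k + 1))) (z : Z f k), d.card + p ≤ k + 1 ∧
    ∀ z' : Z f k, (∀ j ∈ d, z' j = z j) → (⟨k, z'⟩ : E f) ∈ T

def HH (T : Set (E f)) : Prop := ∀ p, ∃ k, p ≤ k ∧ Rich f T p k

variable {f}

theorem HH.exists_ge {T : Set (E f)} (h : HH f T) (p K : ℕ) : ∃ k, K ≤ k ∧ Rich f T p k := by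
  obtain ⟨k, hk, d, z, h1, h2⟩ := h (max p K)
  exact ⟨k, (le_max_right _ _).trans hk, d, z, by have := le_max_left p K; omega, h2⟩

theorem exists_bound {s : Set (E f)} (hs : s.Finite) : ∃ K, ∀ e ∈ s, e.1 < K := by
  obtain ⟨K, hK⟩ := (hs.image Sigma.fst).bddAbove
  exact ⟨K + 1, fun e he => Nat.lt_succ_of_le (hK ⟨e, he, rfl⟩)⟩

theorem HH.almost {T T' : Set (E f)} (h : HH f T) (hT : (T \ T').Finite) : HH f T' := by
  obtain ⟨K, hK⟩ := exists_bound hT
  intro p
  obtain ⟨k, hk, d, z, h1, h2⟩ := h.exists_ge p (max p K)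
  refine ⟨k, (le_max_left _ _).trans hk, d, z, h1, fun z' hz' => ?_⟩
  by_contra hc
  have := hK _ ⟨h2 z' hz', hc⟩
  have h3 := (le_max_right p K).trans hk
  simp only at this
  omega

theorem HH.univ : HH f Set.univ := fun p => ⟨p, le_rfl, ∅, fun _ _ => false, by simp, by simp⟩

theorem HH.infinite {T : Set (E f)} (h : HH f T) : T.Infinite := by
  intro hfin
  obtain ⟨K, hK⟩ := exists_bound hfin
  obtain ⟨k, hk, d, z, _, h2⟩ := h K
  have := hK _ (h2 z fun _ _ => rfl)
  simp only at this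
  omega

variable (f) in
/-- the elements which agree with `y` in one of their coordinates -/
def Kl (y : ℕ → Bool) : Set (E f) := {e | ∃ j, ∀ i, e.2 j i = y i}

theorem HH.kill {T : Set (E f)} (h : HH f T) (y : ℕ → Bool) : HH f (T ∩ Kl f y) := by
  classical
  intro p
  obtain ⟨k, hk, d, z, h1, h2⟩ := h.exists_ge (p + 1) p
  obtain ⟨j, hj⟩ : ∃ j, j ∉ d := by
    by_contra! hc
    have : d = Finset.univ := Finset.eq_univ_iff_forall.2 hc
    rw [this, Finset.card_univ, Fintype.card_fin] at h1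
    omega
  refine ⟨k, hk, insert j d, Function.update z j (fun i => y i), ?_, fun z' hz' => ⟨?_, ?_⟩⟩
  · rw [Finset.card_insert_of_notMem hj]
    omega
  · apply h2
    intro j' hj'
    have hne : j' ≠ j := fun hc => hj (hc ▸ hj')
    rw [hz' j' (Finset.mem_insert_of_mem hj'), Function.update_of_ne hne]
  · refine ⟨j, fun i => ?_⟩
    have := hz' j (Finset.mem_insert_self _ _)
    rw [Function.update_self] at this
    simp only [this]

theorem chain_min' {J α : Type} (T : J → Set α)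
    (hT : ∀ i j, (T i \ T j).Finite ∨ (T j \ T i).Finite)
    (s : Finset J) (hs : s.Nonempty) : ∃ i ∈ s, ∀ j ∈ s, (T i \ T j).Finite := by
  classical
  induction hs using Finset.Nonempty.cons_induction with
  | singleton a =>
    refine ⟨a, Finset.mem_singleton_self a, fun j hj => ?_⟩
    rw [Finset.mem_singleton.1 hj]
    simp
  | cons a s ha hs ih =>
    obtain ⟨i, hi, hij⟩ := ih
    rcases hT a i with h | h
    · refine ⟨a, Finset.mem_cons_self a s, fun j hj => ?_⟩
      rcases Finset.mem_cons.1 hj with rfl | hj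
      · simp
      · exact (h.union (hij j hj)).subset fun n hn => by
          by_cases hni : n ∈ T i
          · exact Or.inr ⟨hni, hn.2⟩
          · exact Or.inl ⟨hn.1, hni⟩
    · refine ⟨i, Finset.mem_cons.2 (Or.inr hi), fun j hj => ?_⟩
      rcases Finset.mem_cons.1 hj with rfl | hj
      · exact h
      · exact hij j hj

theorem exists_lower {J : Type} (hJ : #(J × ℕ) < pNum) (h : J → Set (E f))
    (hh : ∀ j, HH f (h j)) (hch : ∀ i j, (h i \ h j).Finite ∨ (h j \ h i).Finite) :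
    ∃ T, HH f T ∧ ∀ j, (T \ h j).Finite := by
  classical
  rcases isEmpty_or_nonempty J with hJe | ⟨⟨j0⟩⟩
  · exact ⟨Set.univ, HH.univ, fun j => (hJe.false j).elim⟩
  let W : Type := Σ k : ℕ, (Finset (Fin (k + 1)) × Z f k)
  have hWinf : Infinite W := Infinite.of_injective (fun k : ℕ => (⟨k, ∅, fun _ _ => false⟩ : W))
    (fun a b hab => (Sigma.mk.inj_iff.1 hab).1)
  let S : J × ℕ → Set W := fun x => {w | w.2.1.card + x.2 ≤ w.1 + 1 ∧
    ∀ z' : Z f w.1, (∀ i ∈ w.2.1, z' i = w.2.2 i) → (⟨w.1, z'⟩ : E f) ∈ h x.1}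
  have hfinW : ∀ K : ℕ, {w : W | w.1 < K}.Finite := by
    intro K
    have h1 : {w : W | w.1 < K} = ⋃ k ∈ Finset.range K, range (fun x => (⟨k, x⟩ : W)) := by
      ext w
      simp only [mem_ofPred_eq, mem_iUnion, Finset.mem_range, mem_range]
      constructor
      · intro hw
        exact ⟨w.1, hw, w.2, rfl⟩
      · rintro ⟨k, hk, x, rfl⟩
        exact hk
    rw [h1]
    exact (Finset.range K).finite_toSet.biUnion fun k _ => finite_range _
  obtain ⟨A, hA, hAS⟩ := exists_pseudo_of_lt_p hJ S (fun G => by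
    have hT0 : HH f (⋂ x ∈ G, h x.1) := by
      rcases G.eq_empty_or_nonempty with rfl | hne
      · simpa using HH.univ
      · obtain ⟨x, hx, hxG⟩ := chain_min' (fun x : J × ℕ => h x.1) (fun x y => hch x.1 y.1) G hne
        apply (hh x.1).almost
        have h1 : (⋃ y ∈ G, (h x.1 \ h y.1)).Finite := G.finite_toSet.biUnion fun y hy => hxG y hy
        apply h1.subset
        intro e he
        have h2 := he.2
        simp only [mem_iInter, not_forall] at h2
        obtain ⟨y, hy, hey⟩ := h2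
        simp only [mem_iUnion]
        exact ⟨y, hy, he.1, hey⟩
    intro hfin
    obtain ⟨K, hK⟩ := (hfin.image Sigma.fst).bddAbove
    obtain ⟨k, hk, d, z, h1, h2⟩ := hT0.exists_ge (G.sup Prod.snd) (K + 1)
    have h3 : (⟨k, d, z⟩ : W) ∈ ⋂ x ∈ G, S x := by
      simp only [mem_iInter]
      intro x hx
      refine ⟨?_, fun z' hz' => ?_⟩
      · have : x.2 ≤ G.sup Prod.snd := Finset.le_sup (f := Prod.snd) hx
        show d.card + x.2 ≤ k + 1
        omega
      · have := h2 z' hz'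
        simp only [mem_iInter] at this
        exact this x hx
    have h4 : k ≤ K := hK ⟨_, h3, rfl⟩
    omega)
  refine ⟨{e | ∃ (d : Finset (Fin (e.1 + 1))) (z : Z f e.1), (⟨e.1, d, z⟩ : W) ∈ A ∧
    ∀ i ∈ d, e.2 i = z i}, ?_, ?_⟩
  · intro p
    obtain ⟨w, hwA, hw⟩ := (hA.sdiff ((hAS (j0, p)).union (hfinW p))).nonempty
    obtain ⟨k, d, z⟩ := w
    have hwS : (⟨k, d, z⟩ : W) ∈ S (j0, p) := by
      by_contra hc
      exact hw (Or.inl ⟨hwA, hc⟩)
    have hkp : p ≤ k := by
      by_contra hc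
      exact hw (Or.inr (not_le.1 hc))
    exact ⟨k, hkp, d, z, hwS.1, fun z' hz' => ⟨d, z, hwA, hz'⟩⟩
  · intro j
    obtain ⟨K, hK⟩ := ((hAS (j, 0)).image Sigma.fst).bddAbove
    have hfinE : {e : E f | e.1 ≤ K}.Finite := by
      have h1 : {e : E f | e.1 ≤ K} = ⋃ k ∈ Finset.range (K + 1), range (fun x => (⟨k, x⟩ : E f)) := by
        ext w
        simp only [mem_ofPred_eq, mem_iUnion, Finset.mem_range, mem_range]
        constructor
        · intro hw
          exact ⟨w.1, by omega, w.2, rfl⟩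
        · rintro ⟨k, hk, x, rfl⟩
          show k ≤ K
          omega
      rw [h1]
      exact (Finset.range (K + 1)).finite_toSet.biUnion fun k _ => finite_range _
    apply hfinE.subset
    rintro e ⟨⟨d, z, hdz, hez⟩, he⟩
    refine hK ⟨⟨e.1, d, z⟩, ⟨hdz, fun hc => he ?_⟩, rfl⟩
    exact hc.2 e.2 hez

open Classical in
/-- the chain, by transfinite recursion -/
noncomputable def rc {I : Type} [LinearOrder I] [WellFoundedLT I] (K : I → Set (E f)) :
    I → Set (E f) :=
  WellFounded.fix (C := fun _ => Set (E f)) (wellFounded_lt (α := I)) (fun i rec =>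
    if h : ∃ T, HH f T ∧ (∀ j (hj : j < i), (T \ rec j hj).Finite) ∧ T ⊆ K i then h.choose else ∅)

theorem rc_spec {I : Type} [LinearOrder I] [WellFoundedLT I] (K : I → Set (E f))
    (hp : ∀ i : I, #(Iio i × ℕ) < pNum) (hK : ∀ i T, HH f T → HH f (T ∩ K i)) (i : I) :
    HH f (rc K i) ∧ (∀ j < i, (rc K i \ rc K j).Finite) ∧ rc K i ⊆ K i := by
  classical
  induction i using WellFoundedLT.induction with
  | ind i ih =>
    have hex : ∃ T, HH f T ∧ (∀ j (_ : j < i), (T \ rc K j).Finite) ∧ T ⊆ K i := by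
      obtain ⟨T, hT, hTj⟩ := exists_lower (hp i) (fun j : Iio i => rc K j)
        (fun j => (ih j j.2).1) (fun a b => by
          rcases lt_trichotomy a.1 b.1 with h | h | h
          · exact Or.inr ((ih b b.2).2.1 a h)
          · left
            rw [h]
            simp
          · exact Or.inl ((ih a a.2).2.1 b h))
      exact ⟨T ∩ K i, hK i T hT, fun j hj => (hTj ⟨j, hj⟩).subset
        (fun e he => ⟨he.1.1, he.2⟩), inter_subset_right⟩
    have heq : rc K i = hex.choose := by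
      unfold rc
      rw [WellFounded.fix_eq]
      exact dif_pos hex
    rw [heq]
    exact hex.choose_spec

end Slalom

section Final

/-- A set `Y ⊆ 2^ℕ` has strong measure zero: for all lengths `f n` it can be covered by basic
clopen sets `{y : y agrees with s n below f n}`. -/
def IsSMZ (Y : Set (ℕ → Bool)) : Prop :=
  ∀ f : ℕ → ℕ, ∃ s : ℕ → ℕ → Bool, ∀ y ∈ Y, ∃ n, ∀ i < f n, y i = s n i

/-- the least size of a set which is not of strong measure zero -/
noncomputable def nonSMZ : Cardinal.{0} :=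
  sInf {κ | ∃ Y : Set (ℕ → Bool), #Y = κ ∧ ¬ IsSMZ Y}

theorem not_isSMZ_univ : ¬ IsSMZ (Set.univ : Set (ℕ → Bool)) := by
  intro h
  obtain ⟨s, hs⟩ := h (fun n => n + 1)
  obtain ⟨n, hn⟩ := hs (fun n => ! s n n) (mem_univ _)
  have := hn n (Nat.lt_succ_self n)
  simp at this

theorem exists_nonSMZ : ∃ Y : Set (ℕ → Bool), #Y = nonSMZ ∧ ¬ IsSMZ Y :=
  csInf_mem (s := {κ | ∃ Y : Set (ℕ → Bool), #Y = κ ∧ ¬ IsSMZ Y}) ⟨_, Set.univ, rfl, not_isSMZ_univ⟩

variable (f : ℕ → ℕ)

/-- the points of the Cantor space coding the element `e` -/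
def Cl (e : E f) : Set (ℕ → Bool) :=
  {x | ∀ (j : Fin (e.1 + 1)) (i : Fin (f (Nat.pair e.1 j))), x (Nat.pair (Nat.pair e.1 j) i) = e.2 j i}

theorem isClosed_Cl (e : E f) : IsClosed (Cl f e) := by
  have : Cl f e = ⋂ (j : Fin (e.1 + 1)) (i : Fin (f (Nat.pair e.1 j))),
      {x : ℕ → Bool | x (Nat.pair (Nat.pair e.1 j) i) = e.2 j i} := by
    ext x; simp [Cl]
  rw [this]
  exact isClosed_iInter fun j => isClosed_iInter fun i =>
    isClosed_eq (continuous_apply _) continuous_const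

/-- a point coding all the elements `⟨k, z k⟩` -/
noncomputable def code (z : ∀ k, Z f k) (n : ℕ) : Bool :=
  if h : (Nat.unpair (Nat.unpair n).1).2 < (Nat.unpair (Nat.unpair n).1).1 + 1 then
    if h2 : (Nat.unpair n).2 < f (Nat.pair (Nat.unpair (Nat.unpair n).1).1
      (Nat.unpair (Nat.unpair n).1).2) then
      z (Nat.unpair (Nat.unpair n).1).1 ⟨(Nat.unpair (Nat.unpair n).1).2, h⟩ ⟨(Nat.unpair n).2, h2⟩
    else false
  else false

theorem code_mem (z : ∀ k, Z f k) (k : ℕ) : code f z ∈ Cl f ⟨k, z k⟩ := by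
  intro j i
  have h1 : (Nat.unpair (Nat.pair (Nat.pair k j) i)) = (Nat.pair k j, (i : ℕ)) := Nat.unpair_pair _ _
  have h2 : (Nat.unpair (Nat.pair k (j : ℕ))) = (k, (j : ℕ)) := Nat.unpair_pair _ _
  simp only [code]
  have key : ∀ (a : ℕ × ℕ) (b : ℕ × ℕ), Nat.unpair (Nat.pair (Nat.pair k j) i) = a →
      Nat.unpair a.1 = b → a = (Nat.pair k j, (i : ℕ)) → b = (k, (j : ℕ)) →
      (if h : (Nat.unpair a.1).2 < (Nat.unpair a.1).1 + 1 then
        if h2 : a.2 < f (Nat.pair (Nat.unpair a.1).1 (Nat.unpair a.1).2) then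
          z (Nat.unpair a.1).1 ⟨(Nat.unpair a.1).2, h⟩ ⟨a.2, h2⟩
        else false
      else false) = z k j i := by
    intro a b _ hab ha hb
    subst ha
    rw [hb] at hab
    clear hb
    generalize hu : Nat.unpair (Nat.pair k (j : ℕ)) = u at *
    simp only at *
    have hu' : u = (k, (j : ℕ)) := by rw [← hu]; exact Nat.unpair_pair _ _
    clear hab hu h2
    subst hu'
    simp only
    rw [dif_pos j.2, dif_pos i.2]
  exact key _ _ rfl rfl h1 (by rw [h1]; exact h2)

theorem Cl_nonempty (e : E f) : (Cl f e).Nonempty := by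
  classical
  refine ⟨code f (Function.update (fun k _ _ => false) e.1 e.2), ?_⟩
  have := code_mem f (Function.update (fun k _ _ => false) e.1 e.2) e.1
  rwa [Function.update_self] at this

theorem Cl_injective (hf : ∀ n, 0 < f n) : Function.Injective (Cl f) := by
  classical
  intro e e' h
  obtain ⟨k, z⟩ := e
  obtain ⟨k', z'⟩ := e'
  by_cases hk : k = k'
  · subst hk
    congr 1
    obtain ⟨x, hx⟩ := Cl_nonempty f ⟨k, z⟩
    have hx' := hx
    rw [h] at hx'
    funext j i
    exact (hx j i).symm.trans (hx' j i)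
  · exfalso
    let zz : ∀ m, Z f m := Function.update (Function.update (fun m _ _ => false) k z) k'
      (fun j i => ! z' j i)
    have h1 := code_mem f zz k
    have h2 : zz k = z := by
      simp only [zz]
      rw [Function.update_of_ne hk, Function.update_self]
    rw [h2, h] at h1
    have h3 := code_mem f zz k'
    have h4 : zz k' = fun j i => ! z' j i := by
      simp only [zz]
      rw [Function.update_self]
    rw [h4] at h3
    have h5 := h1 0 ⟨0, hf _⟩
    have h6 := h3 0 ⟨0, hf _⟩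
    simp only at h5 h6
    rw [h5] at h6
    simp at h6

/-- The negative half in ZFC. -/
theorem not_of_nonSMZ_le (h : nonSMZ ≤ pNum) :
    ¬ ∀ U : ℕ → Set (ℕ → Bool), IsTauStarCover U → HasGammaSubcover U := by
  classical
  intro hall
  obtain ⟨Y, hY, hYs⟩ := exists_nonSMZ
  -- the lengths
  unfold IsSMZ at hYs
  push Not at hYs
  obtain ⟨f0, hf0⟩ := hYs
  let f : ℕ → ℕ := fun n => f0 n + 1
  have hf : ∀ n, 0 < f n := fun n => Nat.succ_pos _
  have hYf : ∀ s : ℕ → ℕ → Bool, ∃ y ∈ Y, ∀ n, ∃ i < f n, y i ≠ s n i := by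
    intro s
    obtain ⟨y, hy, hys⟩ := hf0 s
    refine ⟨y, hy, fun n => ?_⟩
    obtain ⟨i, hi, hne⟩ := hys n
    exact ⟨i, Nat.lt_succ_of_lt hi, hne⟩
  -- the index set
  let I : Type := (#Y).ord.ToType
  obtain ⟨φ⟩ : Nonempty (I ≃ Y) := Cardinal.eq.1 (Cardinal.mk_ord_toType _)
  have hp : ∀ i : I, #(Iio i × ℕ) < pNum := by
    intro i
    have h1 : #(Iio i) < pNum := (Cardinal.mk_Iio_toType_ord_lt i).trans_le (hY.le.trans h)
    rw [Cardinal.mk_prod, Cardinal.lift_id, Cardinal.lift_id]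
    exact Cardinal.mul_lt_of_lt aleph0_lt_pNum.le h1 (by
      rw [Cardinal.mk_nat]; exact aleph0_lt_pNum)
  let T : I → Set (E f) := rc (fun i => Kl f (φ i).1)
  have hT : ∀ i, HH f (T i) ∧ (∀ j < i, (T i \ T j).Finite) ∧ T i ⊆ Kl f (φ i).1 :=
    rc_spec (fun i => Kl f (φ i).1) hp (fun i T hT => hT.kill _)
  -- every point is avoided by some `T i`
  have hav : ∀ x : ℕ → Bool, ∃ i, ∀ e ∈ T i, x ∉ Cl f e := by
    intro x
    obtain ⟨y, hy, hyx⟩ := hYf (fun m i => x (Nat.pair m i))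
    refine ⟨φ.symm ⟨y, hy⟩, fun e he hxe => ?_⟩
    obtain ⟨j, hj⟩ := (hT _).2.2 he
    rw [Equiv.apply_symm_apply] at hj
    obtain ⟨i, hi, hne⟩ := hyx (Nat.pair e.1 j)
    apply hne
    exact (hj ⟨i, hi⟩).symm.trans (hxe j ⟨i, hi⟩).symm
  choose ι hι using hav
  have : Infinite (E f) := Infinite.of_injective (fun k : ℕ => (⟨k, fun _ _ => false⟩ : E f))
    (fun a b hab => (Sigma.mk.inj_iff.1 hab).1)
  obtain ⟨ε⟩ : Nonempty (ℕ ≃ E f) := nonempty_equiv_of_countable
  let U : ℕ → Set (ℕ → Bool) := fun n => (Cl f (ε n))ᶜ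
  have hU : IsTauStarCover U := by
    have hB : ∀ x, ε ⁻¹' (T (ι x)) ⊆ {n | x ∈ U n} ∧ (ε ⁻¹' (T (ι x))).Infinite := by
      intro x
      refine ⟨fun n hn => hι x _ hn, ?_⟩
      exact (hT _).1.infinite.preimage (by rw [ε.surjective.range_eq]; exact subset_univ _)
    refine ⟨fun n => (isClosed_Cl f _).isOpen_compl, ?_, ?_, ?_, ⟨fun x => ε ⁻¹' (T (ι x)), hB, ?_⟩⟩
    · intro a b hab
      exact ε.injective (Cl_injective f hf (compl_injective hab))
    · intro n hn
      obtain ⟨x, hx⟩ := Cl_nonempty f (ε n)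
      have : x ∈ U n := hn ▸ mem_univ x
      exact this hx
    · intro x
      exact (hB x).2.mono (hB x).1
    · intro x y
      have hpre : ∀ i j, (T i \ T j).Finite → AlmostSub (ε ⁻¹' (T i)) (ε ⁻¹' (T j)) := by
        intro i j hij
        exact (hij.preimage ε.injective.injOn).subset fun n hn => ⟨hn.1, hn.2⟩
      rcases lt_trichotomy (ι x) (ι y) with hlt | heq | hlt
      · exact Or.inr (hpre _ _ ((hT _).2.1 _ hlt))
      · left
        simp only [heq]
        simp [AlmostSub]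
      · exact Or.inl (hpre _ _ ((hT _).2.1 _ hlt))
  obtain ⟨A, hA, hAx⟩ := hall U hU
  -- choose one element of `A` in each level
  let z : ∀ k, Z f k := fun k => if h : ∃ z : Z f k, (⟨k, z⟩ : E f) ∈ ε '' A then h.choose
    else fun _ _ => false
  have hz : ∀ k, (∃ z : Z f k, (⟨k, z⟩ : E f) ∈ ε '' A) → (⟨k, z k⟩ : E f) ∈ ε '' A := by
    intro k hk
    simp only [z]
    rw [dif_pos hk]
    exact hk.choose_spec
  have hinfk : {k | ∃ z : Z f k, (⟨k, z⟩ : E f) ∈ ε '' A}.Infinite := by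
    intro hfin
    apply hA
    have h1 : (⋃ k ∈ {k | ∃ z : Z f k, (⟨k, z⟩ : E f) ∈ ε '' A},
        range (fun z : Z f k => (⟨k, z⟩ : E f))).Finite :=
      hfin.biUnion fun k _ => finite_range _
    have h2 : (ε '' A).Finite := by
      apply h1.subset
      rintro e he
      simp only [mem_iUnion]
      exact ⟨e.1, ⟨e.2, he⟩, e.2, rfl⟩
    exact h2.of_finite_image ε.injective.injOn
  have h3 := hAx (code f z)
  have h4 : (ε '' {n | n ∈ A ∧ code f z ∉ U n}).Finite := h3.image _
  apply hinfk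
  apply ((h4.image Sigma.fst)).subset
  intro k hk
  obtain ⟨n, hn, hnk⟩ := hz k hk
  refine ⟨⟨k, z k⟩, ⟨n, ⟨hn, ?_⟩, hnk⟩, rfl⟩
  simp only [U, mem_compl_iff, not_not]
  rw [hnk]
  exact code_mem f z k

end Final

/-- Every countable open `τ*`-cover of the Cantor space has a subfamily which is a `γ`-cover of it
(the Cantor space satisfies `(T* choose Γ)`). -/
def CantorTauStarGamma : Prop :=
  ∀ U : ℕ → Set (ℕ → Bool), IsTauStarCover U → HasGammaSubcover U

theorem nonSMZ_le_continuum : nonSMZ ≤ 𝔠 := by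
  have h : nonSMZ ≤ #(Set.univ : Set (ℕ → Bool)) := csInf_le' ⟨Set.univ, rfl, not_isSMZ_univ⟩
  rw [mk_univ] at h
  refine h.trans ?_
  rw [← power_def, mk_nat, mk_bool, two_power_aleph0]

/-- No hypothesis is assumed. (1) Some notion of forcing forces that `ω₁` is preserved and that CH
holds; (2) CH implies that the Cantor space does not satisfy `(T* choose Γ)`; (3) so does
`non(SMZ) ≤ p`; (4) if all towers are shorter than `cov(M)`, the Cantor space satisfies it. -/
theorem result :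
    (∃ (P : Type) (_ : Preorder P), Nonempty P ∧ ∀ p : P,
      p ∈ Pool.Agent.Helper292.ForceCH.OmegaOnePreserved P ∧
      p ∈ Pool.Agent.Helper292.ForceCH.CHHolds P) ∧
    ((𝔠 : Cardinal.{0}) = ℵ₁ → ¬ CantorTauStarGamma) ∧
    (nonSMZ ≤ pNum → ¬ CantorTauStarGamma) ∧
    (ShortTowers → CantorTauStarGamma) := by
  refine ⟨?_, fun h => ?_, not_of_nonSMZ_le, fun h U hU => gamma_of_shortTowers h U hU⟩
  · obtain ⟨P, i, h1, h2⟩ := Pool.Agent.Helper292.ForceCH.exists_forcing
    exact ⟨P, i, h1, fun p => ⟨(h2 p).1, (h2 p).2.2⟩⟩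
  · apply not_of_nonSMZ_le
    refine nonSMZ_le_continuum.trans ?_
    rw [h, aleph_one_le_iff]
    exact aleph0_lt_pNum

end Pool.Agent.Results.MP_b2422a_gt.ConsistentlyNo
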