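import Mathlib

open Set Cardinal
open scoped Cardinal

namespace Pool.Agent.Results.MP_b2422a_gt.SmallChains

/-- `A ⊆* B`: all but finitely many elements of `A` belong to `B`. -/
def AlmostSub (A B : Set ℕ) : Prop := (A \ B).Finite

/-- The countably infinite cover `{U n : n}` of `X`, enumerated without repetition, is an open
`τ*`-cover: its members are open and different from `X`, every point lies in infinitely many of
them, and the family of the sets `{n : x ∈ U n}` is linearly refinable. -/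
structure IsTauStarCover {X : Type} [TopologicalSpace X] (U : ℕ → Set X) : Prop where
  isOpen : ∀ n, IsOpen (U n)
  injective : Function.Injective U
  proper : ∀ n, U n ≠ Set.univ
  large : ∀ x, {n | x ∈ U n}.Infinite
  refinable : ∃ B : X → Set ℕ, (∀ x, B x ⊆ {n | x ∈ U n} ∧ (B x).Infinite) ∧
    ∀ x y, AlmostSub (B x) (B y) ∨ AlmostSub (B y) (B x)

/-- Some subfamily `{U n : n ∈ A}`, `A` infinite, is a `γ`-cover of `X`. -/
def HasGammaSubcover {X : Type} (U : ℕ → Set X) : Prop :=
  ∃ A : Set ℕ, A.Infinite ∧ ∀ x, {n | n ∈ A ∧ x ∉ U n}.Finite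

/-- `cov(M)`: the least number of meagre sets covering the Baire space. -/
noncomputable def covM : Cardinal.{0} :=
  sInf {κ | ∃ F : Set (Set (ℕ → ℕ)), #F = κ ∧ (∀ M ∈ F, IsMeagre M) ∧ ⋃₀ F = Set.univ}

theorem exists_notMem_of_lt_covM {I : Set (Set ℕ)} (hI : #I < covM) (M : Set ℕ → Set (ℕ → ℕ))
    (hM : ∀ t ∈ I, IsMeagre (M t)) : ∃ y, ∀ t ∈ I, y ∉ M t := by
  by_contra! hcon
  have h1 : covM ≤ #(M '' I : Set (Set (ℕ → ℕ))) := by
    apply csInf_le'
    refine ⟨M '' I, rfl, ?_, ?_⟩
    · rintro _ ⟨t, ht, rfl⟩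
      exact hM t ht
    · rw [eq_univ_iff_forall]
      intro y
      obtain ⟨t, ht, hy⟩ := hcon y
      exact ⟨M t, ⟨t, ht, rfl⟩, hy⟩
  exact absurd (h1.trans mk_image_le) (not_le.2 hI)

section Rank

variable {X : Type} (U : ℕ → Set X) (S : Set (Set ℕ))

/-- the points which lie outside all `U n`, `n ∈ s` -/
def Pt (s : Finset ℕ) : Set X := {x | ∀ n ∈ s, x ∉ U n}

inductive Bad : Finset ℕ → Prop
  | nil (s : Finset ℕ) : Pt U s = ∅ → Bad s
  | step (s : Finset ℕ) (t : Set ℕ) (ht : t ∈ S) (F : Set ℕ) (hF : F.Finite)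
      (h : ∀ n ∈ t, n ∉ F → Bad (insert n s)) : Bad s

theorem Bad.spec {s : Finset ℕ} (h : Bad U S s) : ∃ C : Set (Set ℕ), C ⊆ S ∧ C.Countable ∧
    ∀ A : Set ℕ, (∀ t ∈ C, AlmostSub A t) → ∀ x ∈ Pt U s, {n | n ∈ A ∧ x ∉ U n}.Finite := by
  induction h with
  | nil s hs =>
    refine ⟨∅, empty_subset _, countable_empty, ?_⟩
    intro A _ x hx
    rw [hs] at hx
    exact absurd hx (notMem_empty _)
  | step s t ht F hF _ ih =>
    classical
    choose! C hC1 hC2 hC3 using ih
    refine ⟨{t} ∪ ⋃ n ∈ {n | n ∈ t ∧ n ∉ F}, C n, ?_, ?_, ?_⟩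
    · apply union_subset (singleton_subset_iff.2 ht)
      exact iUnion₂_subset fun n hn => hC1 n hn.1 hn.2
    · exact (countable_singleton _).union ((to_countable _).biUnion fun n hn => hC2 n hn.1 hn.2)
    · intro A hA x hx
      by_contra hinf
      have hinf' : {n | n ∈ A ∧ x ∉ U n}.Infinite := hinf
      have h1 : (A \ t).Finite := hA t (Or.inl rfl)
      obtain ⟨n, hn, hn2⟩ := (hinf'.sdiff (h1.union hF)).nonempty
      have hnt : n ∈ t := by
        by_contra hc
        exact hn2 (Or.inl ⟨hn.1, hc⟩)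
      have hnF : n ∉ F := fun hc => hn2 (Or.inr hc)
      refine hinf (hC3 n hnt hnF A (fun t' ht' => hA t' (Or.inr ?_)) x ?_)
      · exact mem_biUnion (show n ∈ {n | n ∈ t ∧ n ∉ F} from ⟨hnt, hnF⟩) ht'
      · intro m hm
        rcases Finset.mem_insert.1 hm with rfl | hm
        · exact hn.2
        · exact hx m hm

theorem not_bad_nonempty {s : Finset ℕ} (h : ¬ Bad U S s) : (Pt U s).Nonempty := by
  by_contra hc
  exact h (Bad.nil s (not_nonempty_iff_eq_empty.1 hc))

theorem not_bad_infinite {s : Finset ℕ} (h : ¬ Bad U S s) {t : Set ℕ} (ht : t ∈ S) :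
    {n | n ∈ t ∧ ¬ Bad U S (insert n s)}.Infinite := by
  intro hfin
  apply h
  refine Bad.step s t ht _ hfin ?_
  intro n hn hn2
  by_contra hc
  exact hn2 ⟨hn, hc⟩

open Classical in
/-- the branch coded by `y` -/
noncomputable def sq (y : ℕ → ℕ) (i : ℕ) : Finset ℕ :=
  Nat.rec (motive := fun _ => Finset ℕ) ∅
    (fun i s => if Bad U S (insert (y i) s) then s else insert (y i) s) i

theorem sq_zero (y : ℕ → ℕ) : sq U S y 0 = ∅ := rfl

open Classical in
theorem sq_succ (y : ℕ → ℕ) (i : ℕ) : sq U S y (i + 1) =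
    if Bad U S (insert (y i) (sq U S y i)) then sq U S y i else insert (y i) (sq U S y i) := rfl

theorem sq_not_bad (h0 : ¬ Bad U S ∅) (y : ℕ → ℕ) (i : ℕ) : ¬ Bad U S (sq U S y i) := by
  classical
  induction i with
  | zero => rw [sq_zero]; exact h0
  | succ i ih =>
    rw [sq_succ]
    split_ifs with h
    · exact ih
    · exact h

theorem sq_mono (y : ℕ → ℕ) (i : ℕ) : sq U S y i ⊆ sq U S y (i + 1) := by
  classical
  rw [sq_succ]
  split_ifs
  · exact Finset.Subset.refl _
  · exact Finset.subset_insert _ _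

theorem sq_congr {y y' : ℕ → ℕ} {i : ℕ} (h : ∀ j < i, y j = y' j) :
    sq U S y i = sq U S y' i := by
  classical
  induction i with
  | zero => rfl
  | succ i ih =>
    rw [sq_succ, sq_succ, ih (fun j hj => h j (by omega)), h i (by omega)]

theorem isOpen_sq (i : ℕ) (P : Finset ℕ → Prop) : IsOpen {y | P (sq U S y i)} := by
  classical
  induction i generalizing P with
  | zero => simp only [sq_zero]; exact isOpen_const
  | succ i ih =>
    have h1 : {y | P (sq U S y (i + 1))} = ⋃ n, ({y | y i = n} ∩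
        {y | P (if Bad U S (insert n (sq U S y i)) then sq U S y i
          else insert n (sq U S y i))}) := by
      ext y
      simp only [mem_ofPred_eq, mem_iUnion, mem_inter_iff, sq_succ]
      constructor
      · intro h
        exact ⟨y i, rfl, h⟩
      · rintro ⟨n, rfl, h⟩
        exact h
    rw [h1]
    refine isOpen_iUnion fun n => IsOpen.inter ?_ ?_
    · have h2 : IsOpen ((fun y : ℕ → ℕ => y i) ⁻¹' {n}) :=
        (isOpen_discrete _).preimage (continuous_apply i)
      exact h2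
    · exact ih (fun s => P (if Bad U S (insert n s) then s else insert n s))

/-- the sequences whose branch has only finitely many elements in `t` -/
def Mt (t : Set ℕ) : Set (ℕ → ℕ) := {y | ∃ m, ∀ i, ∀ n ∈ sq U S y i, n ∈ t → n < m}

theorem isMeagre_Mt (h0 : ¬ Bad U S ∅) {t : Set ℕ} (ht : t ∈ S) : IsMeagre (Mt U S t) := by
  have h1 : Mt U S t = ⋃ m, {y | ∀ i, ∀ n ∈ sq U S y i, n ∈ t → n < m} := by
    ext y; simp [Mt]
  rw [h1]
  refine isMeagre_iUnion fun m => IsNowhereDense.isMeagre ?_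
  have hcl : IsClosed {y | ∀ i, ∀ n ∈ sq U S y i, n ∈ t → n < m} := by
    have : {y | ∀ i, ∀ n ∈ sq U S y i, n ∈ t → n < m} =
        ⋂ i, {y | ∀ n ∈ sq U S y i, n ∈ t → n < m} := by
      ext y; simp
    rw [this]
    refine isClosed_iInter fun i => ?_
    rw [← isOpen_compl_iff]
    exact isOpen_sq U S i (fun s => ¬ ∀ n ∈ s, n ∈ t → n < m)
  rw [hcl.isNowhereDense_iff]
  rw [eq_empty_iff_forall_notMem]
  intro y hy
  have hsel : ∀ k, ∃ n, n ∈ t ∧ m ≤ n ∧ ¬ Bad U S (insert n (sq U S y k)) := by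
    intro k
    obtain ⟨n, hn, hnm⟩ := (not_bad_infinite U S (sq_not_bad U S h0 y k) ht).exists_gt m
    exact ⟨n, hn.1, hnm.le, hn.2⟩
  choose f hf1 hf2 hf3 using hsel
  have hlim : Filter.Tendsto (fun k => Function.update y k (f k)) Filter.atTop (nhds y) := by
    rw [tendsto_pi_nhds]
    intro j
    apply tendsto_const_nhds.congr'
    filter_upwards [Filter.eventually_gt_atTop j] with k hk
    rw [Function.update_of_ne hk.ne]
  have hev := hlim.eventually (isOpen_interior.mem_nhds hy)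
  obtain ⟨k, hk⟩ := hev.exists
  have hk2 := interior_subset hk
  have h3 : sq U S (Function.update y k (f k)) k = sq U S y k := by
    apply sq_congr
    intro j hj
    rw [Function.update_of_ne hj.ne]
  have h4 : f k ∈ sq U S (Function.update y k (f k)) (k + 1) := by
    classical
    rw [sq_succ, h3, Function.update_self, if_neg (hf3 k)]
    exact Finset.mem_insert_self _ _
  have h5 := hk2 (k + 1) (f k) h4 (hf1 k)
  exact absurd h5 (not_lt.2 (hf2 k))

theorem exists_point [TopologicalSpace X] [CompactSpace X] (hU : ∀ n, IsOpen (U n)) (h0 : ¬ Bad U S ∅)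
    (hS : #S < covM) : ∃ x, ∀ t ∈ S, {n | n ∈ t ∧ x ∉ U n}.Infinite := by
  obtain ⟨y, hy⟩ := exists_notMem_of_lt_covM hS (Mt U S) (fun t ht => isMeagre_Mt U S h0 ht)
  have hcl : ∀ s : Finset ℕ, IsClosed (Pt U s) := by
    intro s
    have : Pt U s = ⋂ n ∈ s, (U n)ᶜ := by
      ext x; simp [Pt]
    rw [this]
    exact isClosed_biInter fun n _ => (hU n).isClosed_compl
  obtain ⟨x, hx⟩ := IsCompact.nonempty_iInter_of_sequence_nonempty_isCompact_isClosed
    (fun i => Pt U (sq U S y i))
    (fun i x hx n hn => hx n (sq_mono U S y i hn))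
    (fun i => not_bad_nonempty U S (sq_not_bad U S h0 y i))
    (hcl _).isCompact (fun i => hcl _)
  rw [mem_iInter] at hx
  refine ⟨x, fun t ht hfin => ?_⟩
  apply hy t ht
  obtain ⟨m, hm⟩ := hfin.bddAbove
  refine ⟨m + 1, fun i n hn hnt => ?_⟩
  exact Nat.lt_succ_of_le (hm ⟨hnt, hx i n hn⟩)

end Rank


theorem exists_pseudo_of_countable {E : Type} (S : ℕ → Set E)
    (hS : ∀ n, (⋂ i ≤ n, S i).Infinite) : ∃ A : Set E, A.Infinite ∧ ∀ i, (A \ S i).Finite := by
  classical
  have hsel : ∀ (n : ℕ) (F : Finset E), ∃ a, a ∉ F ∧ ∀ i ≤ n, a ∈ S i := by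
    intro n F
    obtain ⟨a, ha, haF⟩ := (hS n).exists_notMem_finset F
    refine ⟨a, haF, fun i hi => ?_⟩
    simp only [mem_iInter] at ha
    exact ha i hi
  choose sel hsel1 hsel2 using hsel
  let G : ℕ → Finset E := fun n => Nat.rec (motive := fun _ => Finset E) ∅
    (fun n F => insert (sel n F) F) n
  have hG : ∀ n, G (n + 1) = insert (sel n (G n)) (G n) := fun n => rfl
  have hmono : Monotone G := monotone_nat_of_le_succ fun n => by
    rw [hG]; exact Finset.subset_insert _ _
  let a : ℕ → E := fun n => sel n (G n)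
  have hinj : Function.Injective a := by
    intro m n hmn
    by_contra hne
    wlog hlt : m < n generalizing m n
    · exact this hmn.symm (Ne.symm hne) (by omega)
    have h1 : a m ∈ G n := by
      apply hmono (show m + 1 ≤ n by omega)
      rw [hG]
      exact Finset.mem_insert_self _ _
    rw [hmn] at h1
    exact hsel1 n (G n) h1
  refine ⟨range a, infinite_range_of_injective hinj, fun i => ?_⟩
  apply ((finite_lt_nat i).image a).subset
  rintro _ ⟨⟨n, rfl⟩, hn⟩
  refine ⟨n, ?_, rfl⟩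
  by_contra hc
  have hin : i ≤ n := not_lt.1 hc
  exact hn (hsel2 n (G n) i hin)

theorem chain_min {I : Type} (T : I → Set ℕ) (hT : ∀ i j, AlmostSub (T i) (T j) ∨ AlmostSub (T j) (T i))
    (s : Finset I) (hs : s.Nonempty) : ∃ i ∈ s, ∀ j ∈ s, AlmostSub (T i) (T j) := by
  classical
  induction hs using Finset.Nonempty.cons_induction with
  | singleton a =>
    refine ⟨a, Finset.mem_singleton_self a, fun j hj => ?_⟩
    rw [Finset.mem_singleton.1 hj]
    simp [AlmostSub]
  | cons a s ha hs ih =>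
    obtain ⟨i, hi, hij⟩ := ih
    rcases hT a i with h | h
    · refine ⟨a, Finset.mem_cons_self a s, fun j hj => ?_⟩
      rcases Finset.mem_cons.1 hj with rfl | hj
      · simp [AlmostSub]
      · exact (h.union (hij j hj)).subset fun n hn => by
          by_cases hni : n ∈ T i
          · exact Or.inr ⟨hni, hn.2⟩
          · exact Or.inl ⟨hn.1, hni⟩
    · refine ⟨i, Finset.mem_cons.2 (Or.inr hi), fun j hj => ?_⟩
      rcases Finset.mem_cons.1 hj with rfl | hj
      · exact h
      · exact hij j hj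

/-- a countable chain of infinite sets has an infinite pseudo-intersection -/
theorem exists_pseudo_chain (C : Set (Set ℕ)) (hC : C.Countable) (hinf : ∀ t ∈ C, t.Infinite)
    (hch : ∀ s ∈ C, ∀ t ∈ C, AlmostSub s t ∨ AlmostSub t s) :
    ∃ A : Set ℕ, A.Infinite ∧ ∀ t ∈ C, AlmostSub A t := by
  rcases C.eq_empty_or_nonempty with rfl | hne
  · exact ⟨Set.univ, infinite_univ, by simp⟩
  obtain ⟨T, rfl⟩ := hC.exists_eq_range hne
  have hch' : ∀ i j, AlmostSub (T i) (T j) ∨ AlmostSub (T j) (T i) :=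
    fun i j => hch _ ⟨i, rfl⟩ _ ⟨j, rfl⟩
  obtain ⟨A, hA, hAT⟩ := exists_pseudo_of_countable T (fun n => by
    obtain ⟨i, hi, hij⟩ := chain_min T hch' (Finset.range (n + 1)) ⟨0, by simp⟩
    have h1 : (⋃ j ∈ Finset.range (n + 1), (T i \ T j)).Finite :=
      (Finset.range (n + 1)).finite_toSet.biUnion fun j hj => hij j hj
    apply ((hinf _ ⟨i, rfl⟩).sdiff h1).mono
    intro a ha
    simp only [mem_iInter]
    intro j hj
    by_contra hc
    apply ha.2
    simp only [mem_iUnion]
    exact ⟨j, by simp; omega, ha.1, hc⟩)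
  refine ⟨A, hA, ?_⟩
  rintro _ ⟨i, rfl⟩
  exact hAT i

/-- The positive half in ZFC: a `τ*`-cover of a compact space which is refined by a chain of
coinitiality less than `cov(M)` has a `γ`-subcover. -/
theorem gamma_of_small {X : Type} [TopologicalSpace X] [CompactSpace X] (U : ℕ → Set X)
    (hU : ∀ n, IsOpen (U n)) (S : Set (Set ℕ)) (hinf : ∀ t ∈ S, t.Infinite)
    (hch : ∀ s ∈ S, ∀ t ∈ S, AlmostSub s t ∨ AlmostSub t s)
    (hS : #S < covM) (href : ∀ x, ∃ t ∈ S, AlmostSub t {n | x ∈ U n}) :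
    HasGammaSubcover U := by
  by_cases h0 : Bad U S ∅
  · obtain ⟨C, hC1, hC2, hC3⟩ := h0.spec U S
    obtain ⟨A, hA, hAC⟩ := exists_pseudo_chain C hC2 (fun t ht => hinf t (hC1 ht))
      (fun s hs t ht => hch s (hC1 hs) t (hC1 ht))
    exact ⟨A, hA, fun x => hC3 A hAC x (by intro n hn; simp at hn)⟩
  · exfalso
    obtain ⟨x, hx⟩ := exists_point U S hU h0 hS
    obtain ⟨t, ht, htx⟩ := href x
    exact hx t ht htx

/-- A countable open cover of a compact space such that the sets `{n : x ∈ U n}` are refined by a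
chain of fewer than `cov(M)` infinite sets has a `γ`-subcover. -/
theorem result (X : Type) [TopologicalSpace X] [CompactSpace X] (U : ℕ → Set X)
    (hU : IsTauStarCover U) (S : Set (Set ℕ)) (hinf : ∀ t ∈ S, t.Infinite)
    (hch : ∀ s ∈ S, ∀ t ∈ S, AlmostSub s t ∨ AlmostSub t s)
    (href : ∀ x, ∃ t ∈ S, AlmostSub t {n | x ∈ U n}) (hS : #S < covM) :
    HasGammaSubcover U :=
  gamma_of_small U hU.isOpen S hinf hch hS href

end Pool.Agent.Results.MP_b2422a_gt.SmallChains
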